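import Pool.Agent.Y320.ST.Stm

/-!
# Project ST: the blow-up at a point of approximate continuity is nearly conformal
-/

set_option autoImplicit false
open Filter Topology MeasureTheory Metric

namespace Pool.Agent.Y328.ST
open Pool.Agent.Y320.CM Pool.Agent.Y320.ST

theorem nsq (w : ℂ) : ‖w‖ ^ 2 = w.re ^ 2 + w.im ^ 2 := by
  rw [← Complex.normSq_eq_norm_sq, Complex.normSq_apply]; ring

/-- coefficients close, forms close -/
theorem qf_close {C η a b c a' b' c' : ℝ} (hC : 0 < C) (hη : 0 < η)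
    (h1 : ∀ w, C⁻¹ * ‖w‖ ^ 2 ≤ qf a b c w)
    (ha : |a' - a| ≤ η / (2 * C)) (hb : |b' - b| ≤ η / (2 * C)) (hc : |c' - c| ≤ η / (2 * C))
    (w : ℂ) : |qf a' b' c' w - qf a b c w| ≤ η * qf a b c w := by
  have h2 : |qf a' b' c' w - qf a b c w| ≤ (η / (2 * C)) * (2 * ‖w‖ ^ 2) := by
    have e : qf a' b' c' w - qf a b c w = (a' - a) * w.re ^ 2 + 2 * ((b' - b) * (w.re * w.im)) +
        (c' - c) * w.im ^ 2 := by
      unfold qf; ring
    rw [e, nsq]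
    set t := η / (2 * C)
    have ht : 0 ≤ t := le_trans (abs_nonneg _) ha
    have k1 : |(a' - a) * w.re ^ 2| ≤ t * w.re ^ 2 := by
      rw [abs_mul, abs_of_nonneg (sq_nonneg w.re)]
      exact mul_le_mul_of_nonneg_right ha (sq_nonneg _)
    have k3 : |(c' - c) * w.im ^ 2| ≤ t * w.im ^ 2 := by
      rw [abs_mul, abs_of_nonneg (sq_nonneg w.im)]
      exact mul_le_mul_of_nonneg_right hc (sq_nonneg _)
    have k2 : |(b' - b) * (w.re * w.im)| ≤ t * ((w.re ^ 2 + w.im ^ 2) / 2) := by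
      rw [abs_mul]
      refine mul_le_mul hb ?_ (abs_nonneg _) ht
      rw [abs_le]
      constructor <;> nlinarith [sq_nonneg (w.re + w.im), sq_nonneg (w.re - w.im)]
    have k1' := abs_le.1 k1
    have k2' := abs_le.1 k2
    have k3' := abs_le.1 k3
    rw [abs_le]
    constructor <;> nlinarith
  refine h2.trans ?_
  have h3 := h1 w
  have e2 : (η / (2 * C)) * (2 * ‖w‖ ^ 2) = η * (C⁻¹ * ‖w‖ ^ 2) := by
    field_simp
  rw [e2]
  exact mul_le_mul_of_nonneg_left h3 hη.le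

/-- coefficients of bounded forms -/
theorem coef_bd {C a b c : ℝ} (hC : 0 < C)
    (h1 : ∀ w, C⁻¹ * ‖w‖ ^ 2 ≤ qf a b c w ∧ qf a b c w ≤ C * ‖w‖ ^ 2) :
    |a| ≤ C ∧ |b| ≤ C ∧ |c| ≤ C := by
  have hC' : 0 < C⁻¹ := inv_pos.2 hC
  have e1 := h1 1
  have e2 := h1 Complex.I
  have e3 := h1 ⟨1, 1⟩
  have e4 := h1 ⟨1, -1⟩
  simp only [qf, nsq, Complex.one_re, Complex.one_im, Complex.I_re, Complex.I_im] at e1 e2 e3 e4
  norm_num at e1 e2 e3 e4
  refine ⟨?_, ?_, ?_⟩ <;> rw [abs_le] <;> constructor <;> nlinarith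

/-- the linear algebra at a good point -/
theorem near_conf {η κ q1 q2 p1 p2 ε : ℝ} (hη : 0 < η) (hη2 : η ≤ 1 / 2) (hε : 4 * η ≤ ε)
    (hκ : 0 < κ)
    (hq1 : 0 ≤ q1) (h1 : |p1 - q1| ≤ η * q1) (h2 : |p2 - q2| ≤ η * q2)
    (h : p2 = κ * p1) : |q2 - κ * q1| ≤ ε * κ * q1 := by
  have a1 := abs_le.1 h1
  have a2 := abs_le.1 h2
  have hk : 0 ≤ κ * q1 := by positivity
  have b1 : κ * p1 ≤ (1 + η) * (κ * q1) := by nlinarith
  have b2 : (1 - η) * (κ * q1) ≤ κ * p1 := by nlinarith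
  rw [abs_le]
  have c1 : (1 - η) * q2 ≤ (1 + η) * (κ * q1) := by nlinarith
  have c2 : (1 - η) * (κ * q1) ≤ (1 + η) * q2 := by nlinarith
  have c3 : (4 * η) * (κ * q1) ≤ ε * (κ * q1) := mul_le_mul_of_nonneg_right hε hk
  constructor
  · -- κ q1 - q2 ≤ ε κ q1
    have : κ * q1 - q2 ≤ 2 * η * (κ * q1) := by
      by_contra hc
      push Not at hc
      nlinarith [mul_nonneg hη.le hk]
    nlinarith [mul_nonneg hη.le hk]
  · have : q2 - κ * q1 ≤ 4 * η * (κ * q1) := by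
      by_contra hc
      push Not at hc
      have hx : q2 > (1 + 4 * η) * (κ * q1) := by linarith
      have hy : (1 - η) * q2 > (1 - η) * ((1 + 4 * η) * (κ * q1)) :=
        mul_lt_mul_of_pos_left hx (by linarith)
      nlinarith [mul_nonneg (mul_nonneg hη.le hk) (by linarith : (0:ℝ) ≤ 1 / 2 - η)]
    nlinarith [mul_nonneg hη.le hk]

/-- volume of the preimage of a set under an affine map -/
theorem vol_pre (L : ℂ ≃L[ℝ] ℂ) (x : ℂ) (r : ℝ) (hr : 0 < r) (S : Set ℂ) :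
    volume ((fun z : ℂ => x + r • L.symm z) ⁻¹' S) =
      ENNReal.ofReal |((L.symm : ℂ →L[ℝ] ℂ) : ℂ →ₗ[ℝ] ℂ).det⁻¹| * (ENNReal.ofReal |(r ^ 2)⁻¹| *
        volume S) := by
  have e : (fun z : ℂ => x + r • L.symm z) ⁻¹' S =
      ((L.symm : ℂ →L[ℝ] ℂ) : ℂ →ₗ[ℝ] ℂ) ⁻¹' ((fun z : ℂ => r • z) ⁻¹'
        ((fun z : ℂ => x + z) ⁻¹' S)) := rfl
  have hdet : ((L.symm : ℂ →L[ℝ] ℂ) : ℂ →ₗ[ℝ] ℂ).det ≠ 0 := by
    have := (LinearEquiv.isUnit_det' L.symm.toLinearEquiv).ne_zero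
    exact this
  rw [e, Measure.addHaar_preimage_linearMap _ hdet, Measure.addHaar_preimage_smul _ hr.ne',
    measure_preimage_add, Complex.finrank_real_complex]

theorem blow (hS : S_STB) (hT : S_STR) (hL : S_LEB) (hQ : S_SQRT) : S_BLOW := by
  intro G _ τ hact N hN
  obtain ⟨a, b, c, C, hC, ma, mb, mc, hq, hae⟩ := hT G τ hact N hN
  obtain ⟨s1, s2, s3, s4, s5, -, -, -, -⟩ := hS
  have bd := fun z => coef_bd hC (hq z)
  have la := hL a C ma (fun z => (bd z).1)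
  have lb := hL b C mb (fun z => (bd z).2.1)
  have lc := hL c C mc (fun z => (bd z).2.2)
  obtain ⟨x, xa, xb, xc⟩ : ∃ x : ℂ, (∀ ε : ℝ, 0 < ε → ∃ r0 : ℝ, 0 < r0 ∧ ∀ r : ℝ, 0 < r → r < r0 →
      volume {y : ℂ | dist y x ≤ r ∧ ε < |a y - a x|} ≤ ENNReal.ofReal (ε * r ^ 2)) ∧
      (∀ ε : ℝ, 0 < ε → ∃ r0 : ℝ, 0 < r0 ∧ ∀ r : ℝ, 0 < r → r < r0 →
      volume {y : ℂ | dist y x ≤ r ∧ ε < |b y - b x|} ≤ ENNReal.ofReal (ε * r ^ 2)) ∧
      (∀ ε : ℝ, 0 < ε → ∃ r0 : ℝ, 0 < r0 ∧ ∀ r : ℝ, 0 < r → r < r0 →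
      volume {y : ℂ | dist y x ≤ r ∧ ε < |c y - c x|} ≤ ENNReal.ofReal (ε * r ^ 2)) := by
    have := (la.and (lb.and lc)).exists
    exact this
  obtain ⟨L, hLq⟩ := hQ (a x) (b x) (c x) C hC (fun w => (hq x w).1)
  refine ⟨L, x, ?_⟩
  intro r hr htr A hAinf hA 𝓤 h𝓤 g ρ ε hρ hε
  -- the constants
  set η : ℝ := min ε 1 / 4 with hη
  have hη0 : 0 < η := by positivity
  have hη1 : η ≤ 1 / 2 := by
    have := min_le_right ε 1
    rw [hη]; linarith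
  have hη2 : 4 * η ≤ ε := by
    have := min_le_left ε 1
    rw [hη]; linarith
  set ε1 : ℝ := η / (2 * C) with hε1
  have hε1' : 0 < ε1 := by positivity
  set M : ℝ := ‖(L.symm : ℂ →L[ℝ] ℂ)‖ * ρ + 1 with hM
  have hM0 : 0 < M := by positivity
  set K : ℝ := |((L.symm : ℂ →L[ℝ] ℂ) : ℂ →ₗ[ℝ] ℂ).det⁻¹| with hK
  have hK0 : 0 ≤ K := abs_nonneg _
  set ε2 : ℝ := min ε1 (ε / (3 * K * M ^ 2 + 1)) with hε2
  have hden : 0 < 3 * K * M ^ 2 + 1 := by positivity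
  have hε2' : 0 < ε2 := lt_min hε1' (div_pos hε hden)
  have hε2a : ε2 ≤ ε1 := min_le_left _ _
  have hε2b : K * (3 * (ε2 * M ^ 2)) ≤ ε := by
    have h1 : ε2 ≤ ε / (3 * K * M ^ 2 + 1) := min_le_right _ _
    rw [le_div_iff₀ hden] at h1
    nlinarith
  obtain ⟨ra, hra, hra'⟩ := xa ε2 hε2'
  obtain ⟨rb, hrb, hrb'⟩ := xb ε2 hε2'
  obtain ⟨rc, hrc, hrc'⟩ := xc ε2 hε2'
  have hlim : Tendsto (fun n => r n * M) (𝓤 : Filter ℕ) (𝓝 0) := by
    have := (htr.mono_left h𝓤).mul_const M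
    simpa using this
  have hev : ∀ᶠ n in (𝓤 : Filter ℕ), r n * M < min ra (min rb rc) :=
    hlim.eventually (gt_mem_nhds (lt_min hra (lt_min hrb hrc)))
  filter_upwards [hev] with n hn
  have hrn := hr n
  have hrM : 0 < r n * M := mul_pos hrn hM0
  have hn1 : r n * M < ra := hn.trans_le (min_le_left _ _)
  have hn2 : r n * M < rb := hn.trans_le ((min_le_right _ _).trans (min_le_left _ _))
  have hn3 : r n * M < rc := hn.trans_le ((min_le_right _ _).trans (min_le_right _ _))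
  set Bad : Set ℂ := {y | ε1 < |a y - a x| ∨ ε1 < |b y - b x| ∨ ε1 < |c y - c x|} with hBad
  set Z : Set ℂ := {z : ℂ | ¬ ∀ g, τ g (sg z) ≠ inf ∧ DifferentiableAt ℝ (pl (τ g)) z ∧
        ∃ κ : ℝ, 0 < κ ∧
        ∀ w, qf (a (pl (τ g) z)) (b (pl (τ g) z)) (c (pl (τ g) z)) (fderiv ℝ (pl (τ g)) z w) =
          κ * qf (a z) (b z) (c z) w} with hZ
  have hZ0 : volume Z = 0 := hae
  set Y : ℂ → ℂ := fun z => x + r n • L.symm z with hY
  have hYd : ∀ z, ‖z‖ ≤ ρ → dist (Y z) x ≤ r n * M := by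
    intro z hz
    rw [hY, dist_eq_norm]
    simp only [add_sub_cancel_left]
    rw [norm_smul, Real.norm_eq_abs, abs_of_pos hrn]
    refine mul_le_mul_of_nonneg_left ?_ hrn.le
    have h1 : ‖L.symm z‖ ≤ ‖(L.symm : ℂ →L[ℝ] ℂ)‖ * ‖z‖ := (L.symm : ℂ →L[ℝ] ℂ).le_opNorm z
    have h2 : ‖(L.symm : ℂ →L[ℝ] ℂ)‖ * ‖z‖ ≤ ‖(L.symm : ℂ →L[ℝ] ℂ)‖ * ρ :=
      mul_le_mul_of_nonneg_left hz (norm_nonneg _)
    rw [hM]; linarith
  set S : Set ℂ := ({y | dist y x ≤ r n * M ∧ ε2 < |a y - a x|} ∪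
    {y | dist y x ≤ r n * M ∧ ε2 < |b y - b x|} ∪
    {y | dist y x ≤ r n * M ∧ ε2 < |c y - c x|}) ∪ Z with hSdef
  have hSv : volume S ≤ ENNReal.ofReal (3 * (ε2 * (r n * M) ^ 2)) := by
    have e1 := hra' _ hrM hn1
    have e2 := hrb' _ hrM hn2
    have e3 := hrc' _ hrM hn3
    have h0 : 0 ≤ ε2 * (r n * M) ^ 2 := by positivity
    calc volume S ≤ volume ({y | dist y x ≤ r n * M ∧ ε2 < |a y - a x|} ∪
          {y | dist y x ≤ r n * M ∧ ε2 < |b y - b x|} ∪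
          {y | dist y x ≤ r n * M ∧ ε2 < |c y - c x|}) + volume Z := measure_union_le _ _
      _ ≤ (volume ({y | dist y x ≤ r n * M ∧ ε2 < |a y - a x|}) +
          volume {y | dist y x ≤ r n * M ∧ ε2 < |b y - b x|} +
          volume {y | dist y x ≤ r n * M ∧ ε2 < |c y - c x|}) + 0 := by
            rw [hZ0]
            gcongr
            refine (measure_union_le _ _).trans ?_
            gcongr
            exact measure_union_le _ _
      _ ≤ (ENNReal.ofReal (ε2 * (r n * M) ^ 2) + ENNReal.ofReal (ε2 * (r n * M) ^ 2) +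
          ENNReal.ofReal (ε2 * (r n * M) ^ 2)) + 0 := by gcongr
      _ = ENNReal.ofReal (3 * (ε2 * (r n * M) ^ 2)) := by
            rw [add_zero, ← ENNReal.ofReal_add h0 h0, ← ENNReal.ofReal_add (by positivity) h0]
            congr 1; ring
  have hpre : volume (Y ⁻¹' S) ≤ ENNReal.ofReal ε := by
    rw [hY, vol_pre L x (r n) hrn S, ← hK]
    calc ENNReal.ofReal K * (ENNReal.ofReal |(r n ^ 2)⁻¹| * volume S)
        ≤ ENNReal.ofReal K * (ENNReal.ofReal |(r n ^ 2)⁻¹| *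
          ENNReal.ofReal (3 * (ε2 * (r n * M) ^ 2))) := by gcongr
      _ = ENNReal.ofReal (K * (3 * (ε2 * M ^ 2))) := by
          rw [← ENNReal.ofReal_mul (abs_nonneg _), ← ENNReal.ofReal_mul hK0]
          congr 1
          rw [abs_of_pos (by positivity : 0 < (r n ^ 2)⁻¹)]
          field_simp
      _ ≤ ENNReal.ofReal ε := ENNReal.ofReal_le_ofReal hε2b
  have hBS : ∀ z, ‖z‖ ≤ ρ → Y z ∈ Bad → Y z ∈ S := by
    intro z hz hb
    have hd := hYd z hz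
    rcases hb with h | h | h
    · exact Or.inl (Or.inl (Or.inl ⟨hd, hε2a.trans_lt h⟩))
    · exact Or.inl (Or.inl (Or.inr ⟨hd, hε2a.trans_lt h⟩))
    · exact Or.inl (Or.inr ⟨hd, hε2a.trans_lt h⟩)
  refine ⟨{z | ‖z‖ ≤ ρ ∧ (Y z ∈ Bad ∨ Y z ∈ Z)}, {z | ‖z‖ ≤ ρ ∧ Y z ∈ Bad}, ?_, ?_, ?_⟩
  · refine (measure_mono ?_).trans hpre
    rintro z ⟨hz, h | h⟩
    · exact hBS z hz h
    · exact Or.inr h
  · refine (measure_mono ?_).trans hpre
    rintro z ⟨hz, h⟩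
    exact hBS z hz h
  -- the pointwise statement
  intro z hz hz1 hz2 hz3 hz4
  have hrc0 : ((r n : ℝ) : ℂ) ≠ 0 := by exact_mod_cast hrn.ne'
  have hAY : ∀ z', (A n).symm (sg z') = sg (Y z') := by
    intro z'
    rw [Homeomorph.symm_apply_eq, hA]
    congr 1
    rw [hY]
    simp only [add_sub_cancel_left]
    rw [Complex.real_smul, ← mul_assoc, inv_mul_cancel₀ hrc0, one_mul, L.apply_symm_apply]
  have hzB : Y z ∉ Bad := fun h => hz1 ⟨hz, Or.inl h⟩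
  have hzZ : Y z ∉ Z := fun h => hz1 ⟨hz, Or.inr h⟩
  have hgood : ∀ g, τ g (sg (Y z)) ≠ inf ∧ DifferentiableAt ℝ (pl (τ g)) (Y z) ∧
        ∃ κ : ℝ, 0 < κ ∧
        ∀ w, qf (a (pl (τ g) (Y z))) (b (pl (τ g) (Y z))) (c (pl (τ g) (Y z)))
          (fderiv ℝ (pl (τ g)) (Y z) w) = κ * qf (a (Y z)) (b (Y z)) (c (Y z)) w :=
    not_not.1 hzZ
  obtain ⟨g1, g2, κ, hκ, g3⟩ := hgood (g n)
  -- formula for the planar version
  have hform : ∀ z', τ (g n) (sg (Y z')) ≠ inf →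
      pl (fun p => A n (τ (g n) ((A n).symm p))) z' =
        L ((r n)⁻¹ • (pl (τ (g n)) (Y z') - x)) := by
    intro z' hz'
    show st (A n (τ (g n) ((A n).symm (sg z')))) = _
    rw [hAY, ← s2 _ hz', hA, s1]
    congr 1
    rw [Complex.real_smul, Complex.ofReal_inv]
    rfl
  set D : ℂ →L[ℝ] ℂ := fderiv ℝ (pl (τ (g n))) (Y z) with hD
  have hYder : HasFDerivAt Y (r n • (L.symm : ℂ →L[ℝ] ℂ)) z := by
    have h1 : HasFDerivAt (fun z : ℂ => L.symm z) (L.symm : ℂ →L[ℝ] ℂ) z :=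
      (L.symm : ℂ →L[ℝ] ℂ).hasFDerivAt
    exact (h1.const_smul (r n)).const_add x
  have hcomp : HasFDerivAt (fun z' => L ((r n)⁻¹ • (pl (τ (g n)) (Y z') - x)))
      ((L : ℂ →L[ℝ] ℂ).comp ((r n)⁻¹ • (D.comp (r n • (L.symm : ℂ →L[ℝ] ℂ))))) z := by
    have h1 : HasFDerivAt (fun z' => pl (τ (g n)) (Y z'))
        (D.comp (r n • (L.symm : ℂ →L[ℝ] ℂ))) z := g2.hasFDerivAt.comp z hYder
    exact (L : ℂ →L[ℝ] ℂ).hasFDerivAt.comp z ((h1.sub_const x).const_smul (r n)⁻¹)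
  have hnear : ∀ᶠ z' in 𝓝 z, τ (g n) (sg (Y z')) ≠ inf := by
    have hcont : Continuous fun z' => τ (g n) (sg (Y z')) := by
      refine (hact.cont (g n)).comp (s4.comp ?_)
      rw [hY]
      fun_prop
    exact (hcont.continuousAt (x := z)).eventually (isOpen_compl_singleton.mem_nhds g1)
  have hderiv : HasFDerivAt (pl (fun p => A n (τ (g n) ((A n).symm p))))
      ((L : ℂ →L[ℝ] ℂ).comp (D.comp (L.symm : ℂ →L[ℝ] ℂ))) z := by
    have h1 : HasFDerivAt (pl (fun p => A n (τ (g n) ((A n).symm p))))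
        ((L : ℂ →L[ℝ] ℂ).comp ((r n)⁻¹ • (D.comp (r n • (L.symm : ℂ →L[ℝ] ℂ))))) z := by
      refine hcomp.congr_of_eventuallyEq ?_
      filter_upwards [hnear] with z' hz'
      exact hform z' hz'
    have h2 : ((L : ℂ →L[ℝ] ℂ).comp ((r n)⁻¹ • (D.comp (r n • (L.symm : ℂ →L[ℝ] ℂ))))) =
        ((L : ℂ →L[ℝ] ℂ).comp (D.comp (L.symm : ℂ →L[ℝ] ℂ))) := by
      ext w
      simp only [ContinuousLinearMap.comp_apply, ContinuousLinearMap.smul_apply, map_smul]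
      rw [smul_smul, inv_mul_cancel₀ hrn.ne', one_smul]
    rwa [h2] at h1
  refine ⟨_, κ, hderiv, hκ, ?_⟩
  -- the image point
  have himg : Y (pl (fun p => A n (τ (g n) ((A n).symm p))) z) = pl (τ (g n)) (Y z) := by
    rw [hform z g1, hY]
    simp only [L.symm_apply_apply]
    rw [smul_smul, mul_inv_cancel₀ hrn.ne', one_smul]
    ring
  have hyB : pl (τ (g n)) (Y z) ∉ Bad := by
    intro h
    exact hz4 ⟨hz3, by rw [himg]; exact h⟩
  have hcl : ∀ y, y ∉ Bad → ∀ w, |qf (a y) (b y) (c y) w - qf (a x) (b x) (c x) w| ≤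
      η * qf (a x) (b x) (c x) w := by
    intro y hy w
    simp only [hBad, Set.mem_setOf_eq, not_or, not_lt] at hy
    exact qf_close hC hη0 (fun w => (hq x w).1) hy.1 hy.2.1 hy.2.2 w
  intro w
  have f1 := hcl _ hzB (L.symm w)
  have f2 := hcl _ hyB (D (L.symm w))
  rw [← hLq, L.apply_symm_apply] at f1
  rw [← hLq] at f2
  exact near_conf hη0 hη1 hη2 hκ (sq_nonneg _) f1 f2 (g3 _)

end Pool.Agent.Y328.ST
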